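import Mathlib

/-!
# Generalized cycle reversions of tournaments: transfinite sequences (MP_429025_co)
-/

set_option autoImplicit false

namespace Pool.Agent.Helper4.ZRev

variable {V : Type}

/-- Tournament. -/
def IsTournament (D : V → V → Prop) : Prop :=
  (∀ v, ¬ D v v) ∧ ∀ u v, u ≠ v → (D u v ↔ ¬ D v u)

/-- The directed edges `c i → c (i+1)`. -/
def Edge {n : ℕ} (c : ZMod n → V) (u v : V) : Prop := ∃ i, u = c i ∧ v = c (i + 1)

/-- Directed cycle with the `n ≥ 2` distinct vertices `c 0, …, c (n-1)`. -/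
def IsDicycle (D : V → V → Prop) {n : ℕ} (c : ZMod n → V) : Prop :=
  2 ≤ n ∧ Function.Injective c ∧ ∀ i, D (c i) (c (i + 1))

/-- `ℤ`-chain. -/
def IsZChain (D : V → V → Prop) (c : ℤ → V) : Prop :=
  Function.Injective c ∧ ∀ i, D (c i) (c (i + 1))

/-- The edges `E` of `D` are reversed. -/
def Reverse (D : V → V → Prop) (E : V → V → Prop) : V → V → Prop :=
  fun u v => (D u v ∧ ¬ E u v) ∨ E v u

/-- One step: the reversal of a directed cycle or of a `ℤ`-chain. -/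
def Step (D D' : V → V → Prop) : Prop :=
  (∃ (n : ℕ) (c : ZMod n → V), IsDicycle D c ∧
    D' = Reverse D fun u v => ∃ i, u = c i ∧ v = c (i + 1)) ∨
  (∃ c : ℤ → V, IsZChain D c ∧ D' = Reverse D fun u v => ∃ i, u = c i ∧ v = c (i + 1))

/-- Generalized cycle reversion (transfinite sequence of steps). -/
def IsReversion (D D' : V → V → Prop) : Prop :=
  ∃ (α : Ordinal.{0}) (F : Ordinal.{0} → V → V → Prop), F 0 = D ∧ F α = D' ∧
    (∀ ξ < α, Step (F ξ) (F (ξ + 1))) ∧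
    ∀ l ≤ α, Order.IsSuccLimit l → ∀ u v, ∃ ξ < l, ∀ η, ξ ≤ η → η < l → (F η u v ↔ F l u v)

/-- A valid sequence of length `α` from `D` to `D'`. -/
structure Valid (D D' : V → V → Prop) (α : Ordinal.{0}) (F : Ordinal.{0} → V → V → Prop) :
    Prop where
  zero : F 0 = D
  last : F α = D'
  step : ∀ ξ < α, Step (F ξ) (F (ξ + 1))
  limit : ∀ l ≤ α, Order.IsSuccLimit l → ∀ u v, ∃ ξ < l, ∀ η, ξ ≤ η → η < l →
    (F η u v ↔ F l u v)

/-- Reachability using only the pairs in `E`. -/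
def Reach (E : Set (Sym2 V)) (D D' : V → V → Prop) : Prop :=
  ∃ (α : Ordinal.{0}) (F : Ordinal.{0} → V → V → Prop), Valid D D' α F ∧
    ∀ ξ ≤ α, ∀ u v, s(u, v) ∉ E → (F ξ u v ↔ D u v)

theorem Reach.isReversion {E : Set (Sym2 V)} {D D' : V → V → Prop} (h : Reach E D D') :
    IsReversion D D' := by
  obtain ⟨α, F, hF, -⟩ := h
  exact ⟨α, F, hF.zero, hF.last, hF.step, hF.limit⟩

theorem Reach.refl (D : V → V → Prop) : Reach ∅ D D := by
  refine ⟨0, fun _ => D, ⟨rfl, rfl, ?_, ?_⟩, fun _ _ _ _ _ => Iff.rfl⟩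
  · intro ξ hξ; exact absurd hξ (not_lt.2 zero_le)
  · intro l hl hl'
    have : l = 0 := le_antisymm hl zero_le
    rw [this] at hl'
    exact absurd hl' (by rw [Ordinal.isSuccLimit_iff]; simp)

theorem Reach.mono {E E' : Set (Sym2 V)} (hE : E ⊆ E') {D D' : V → V → Prop}
    (h : Reach E D D') : Reach E' D D' := by
  obtain ⟨α, F, hF, hE2⟩ := h
  exact ⟨α, F, hF, fun ξ hξ u v hu => hE2 ξ hξ u v fun h => hu (hE h)⟩

theorem Reach.eq_of_notMem {E : Set (Sym2 V)} {D D' : V → V → Prop} (h : Reach E D D')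
    {u v : V} (huv : s(u, v) ∉ E) : D' u v ↔ D u v := by
  obtain ⟨α, F, hF, hE⟩ := h
  rw [← hF.last]
  exact hE α le_rfl u v huv

/-- concatenation of two valid sequences -/
theorem Valid.trans {D D' D'' : V → V → Prop} {α β : Ordinal.{0}}
    {F G : Ordinal.{0} → V → V → Prop} (hF : Valid D D' α F) (hG : Valid D' D'' β G) :
    ∃ H : Ordinal.{0} → V → V → Prop, Valid D D'' (α + β) H ∧ (∀ ξ ≤ α, H ξ = F ξ) ∧
      ∀ ζ, H (α + ζ) = G ζ := by
  classical
  let H : Ordinal.{0} → V → V → Prop := fun ξ => if ξ ≤ α then F ξ else G (ξ - α)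
  have h1 : ∀ ξ ≤ α, H ξ = F ξ := fun ξ hξ => if_pos hξ
  have h2 : ∀ ζ, H (α + ζ) = G ζ := by
    intro ζ
    rcases eq_or_ne ζ 0 with rfl | hζ
    · rw [add_zero, h1 α le_rfl, hF.last, hG.zero]
    · have hlt : ¬ (α + ζ ≤ α) := by
        rw [not_le]
        have : 0 < ζ := pos_of_ne_zero hζ
        calc α = α + 0 := (add_zero _).symm
          _ < α + ζ := (add_lt_add_iff_left α).2 this
      simp only [H, if_neg hlt]
      rw [Ordinal.add_sub_cancel]
  refine ⟨H, ⟨?_, ?_, ?_, ?_⟩, h1, h2⟩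
  · rw [h1 0 zero_le, hF.zero]
  · rw [h2, hG.last]
  · intro ξ hξ
    rcases lt_or_ge ξ α with h | h
    · rw [h1 ξ h.le, h1 (ξ + 1) (Order.add_one_le_of_lt h)]
      exact hF.step ξ h
    · obtain ⟨ζ, rfl⟩ : ∃ ζ, ξ = α + ζ := ⟨ξ - α, (Ordinal.add_sub_cancel_of_le h).symm⟩
      rw [h2, add_assoc, h2]
      exact hG.step ζ ((add_lt_add_iff_left α).1 hξ)
  · intro l hl hlim u v
    rcases le_or_gt l α with h | h
    · obtain ⟨ξ, hξ, hξ2⟩ := hF.limit l h hlim u v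
      refine ⟨ξ, hξ, fun η hη hη2 => ?_⟩
      rw [h1 η (hη2.le.trans h), h1 l h]
      exact hξ2 η hη hη2
    · obtain ⟨ζ, rfl⟩ : ∃ ζ, l = α + ζ := ⟨l - α, (Ordinal.add_sub_cancel_of_le h.le).symm⟩
      have hζ0 : ζ ≠ 0 := by rintro rfl; simp at h
      have hζ : Order.IsSuccLimit ζ := by
        rcases Ordinal.zero_or_succ_or_isSuccLimit ζ with h0 | ⟨ζ', rfl⟩ | h0
        · exact absurd h0 hζ0
        · exfalso
          rw [Order.succ_eq_add_one, ← add_assoc] at hlim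
          have := hlim.isSuccPrelimit
          exact this _ (by rw [← Order.succ_eq_add_one]; exact Order.covBy_succ _)
        · exact h0
      obtain ⟨ξ, hξ, hξ2⟩ := hG.limit ζ ((add_le_add_iff_left α).1 hl) hζ u v
      refine ⟨α + ξ, (add_lt_add_iff_left α).2 hξ, fun η hη hη2 => ?_⟩
      have hαη : α ≤ η := le_trans (by simp) hη
      obtain ⟨η', rfl⟩ : ∃ η', η = α + η' := ⟨η - α, (Ordinal.add_sub_cancel_of_le hαη).symm⟩
      rw [h2, h2]
      exact hξ2 η' ((add_le_add_iff_left α).1 hη) ((add_lt_add_iff_left α).1 hη2)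

theorem Reach.trans {E E' : Set (Sym2 V)} {D D' D'' : V → V → Prop} (h : Reach E D D')
    (h' : Reach E' D' D'') : Reach (E ∪ E') D D'' := by
  obtain ⟨α, F, hF, hFE⟩ := h
  obtain ⟨β, G, hG, hGE⟩ := h'
  obtain ⟨H, hH, h1, h2⟩ := hF.trans hG
  refine ⟨α + β, H, hH, fun ξ hξ u v huv => ?_⟩
  rw [Set.mem_union, not_or] at huv
  rcases le_or_gt ξ α with h | h
  · rw [h1 ξ h]; exact hFE ξ h u v huv.1
  · obtain ⟨ζ, rfl⟩ : ∃ ζ, ξ = α + ζ := ⟨ξ - α, (Ordinal.add_sub_cancel_of_le h.le).symm⟩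
    rw [h2, hGE ζ ((add_le_add_iff_left α).1 hξ) u v huv.2, ← hF.last]
    exact hFE α le_rfl u v huv.1

/-- `ω` many reversions -/
theorem Reach.lim {T : ℕ → V → V → Prop} {E : ℕ → Set (Sym2 V)}
    (h : ∀ n, Reach (E n) (T n) (T (n + 1))) (hfin : ∀ e, {n | e ∈ E n}.Finite)
    {S : V → V → Prop} (hS : ∀ u v, ∃ N, ∀ n ≥ N, (T n u v ↔ S u v)) :
    Reach (⋃ n, E n) (T 0) S := by
  classical
  choose a G hG hGE using h
  -- the partial sequences
  let P : ℕ → Type 1 := fun n =>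
    {p : Ordinal.{0} × (Ordinal.{0} → V → V → Prop) // Valid (T 0) (T n) p.1 p.2}
  have hP0 : Valid (T 0) (T 0) 0 (fun _ : Ordinal.{0} => T 0) := by
    refine ⟨rfl, rfl, ?_, ?_⟩
    · intro ξ hξ; exact absurd hξ (not_lt.2 zero_le)
    · intro l hl hl'
      have : l = 0 := le_antisymm hl zero_le
      rw [this] at hl'
      exact absurd hl' (by rw [Ordinal.isSuccLimit_iff]; simp)
  let nxt : ∀ n, P n → P (n + 1) := fun n p =>
    ⟨(p.1.1 + a n, (p.2.trans (hG n)).choose), (p.2.trans (hG n)).choose_spec.1⟩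
  have nxt_fst : ∀ n (p : P n), (nxt n p).1.1 = p.1.1 + a n := fun n p => rfl
  have nxt_le : ∀ n (p : P n), ∀ ξ ≤ p.1.1, (nxt n p).1.2 ξ = p.1.2 ξ := fun n p =>
    (p.2.trans (hG n)).choose_spec.2.1
  have nxt_add : ∀ n (p : P n) ζ, (nxt n p).1.2 (p.1.1 + ζ) = G n ζ := fun n p =>
    (p.2.trans (hG n)).choose_spec.2.2
  let sq : ∀ n, P n := fun n => Nat.rec ⟨(0, fun _ => T 0), hP0⟩ nxt n
  have sq_succ : ∀ n, sq (n + 1) = nxt n (sq n) := fun n => rfl
  let β : ℕ → Ordinal.{0} := fun n => (sq n).1.1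
  let F : ℕ → Ordinal.{0} → V → V → Prop := fun n => (sq n).1.2
  have hV : ∀ n, Valid (T 0) (T n) (β n) (F n) := fun n => (sq n).2
  have β_succ : ∀ n, β (n + 1) = β n + a n := fun n => nxt_fst n (sq n)
  have F_le : ∀ n, ∀ ξ ≤ β n, F (n + 1) ξ = F n ξ := fun n => nxt_le n (sq n)
  have F_add : ∀ n ζ, F (n + 1) (β n + ζ) = G n ζ := fun n => nxt_add n (sq n)
  have β_mono : Monotone β := monotone_nat_of_le_succ fun n => by
    rw [β_succ]; simp
  have F_le' : ∀ n m, n ≤ m → ∀ ξ ≤ β n, F m ξ = F n ξ := by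
    intro n m hnm
    induction m, hnm using Nat.le_induction with
    | base => intro ξ _; rfl
    | succ m hm ih =>
      intro ξ hξ
      rw [F_le m ξ (hξ.trans (β_mono hm)), ih ξ hξ]
  have F_edge : ∀ n, ∀ ξ, β n ≤ ξ → ξ ≤ β (n + 1) → ∀ u v, s(u, v) ∉ E n →
      (F (n + 1) ξ u v ↔ T n u v) := by
    intro n ξ h1 h2 u v huv
    obtain ⟨ζ, rfl⟩ : ∃ ζ, ξ = β n + ζ := ⟨ξ - β n, (Ordinal.add_sub_cancel_of_le h1).symm⟩
    rw [F_add]
    apply hGE n ζ _ u v huv
    rw [β_succ] at h2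
    exact (add_le_add_iff_left _).1 h2
  -- pairs outside all `E n` never change
  have F_all : ∀ n, ∀ ξ ≤ β n, ∀ u v, s(u, v) ∉ ⋃ n, E n → (F n ξ u v ↔ T 0 u v) := by
    intro n
    induction n with
    | zero => intro ξ _ u v _; exact Iff.rfl
    | succ n ih =>
      intro ξ hξ u v huv
      rcases le_total ξ (β n) with h1 | h1
      · rw [F_le n ξ h1]; exact ih ξ h1 u v huv
      · rw [F_edge n ξ h1 hξ u v (fun h => huv (Set.mem_iUnion.2 ⟨n, h⟩)), ← (hV n).last]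
        exact ih _ le_rfl u v huv
  -- pairs outside the later `E n` never change later
  have F_late : ∀ u v N, (∀ n ≥ N, s(u, v) ∉ E n) → ∀ n ≥ N, ∀ ξ, β N ≤ ξ → ξ ≤ β n →
      (F n ξ u v ↔ T N u v) := by
    intro u v N hN n hn
    induction n, hn using Nat.le_induction with
    | base =>
      intro ξ h1 h2
      rw [le_antisymm h2 h1, (hV N).last]
    | succ n hn ih =>
      intro ξ h1 h2
      rcases le_total ξ (β n) with h3 | h3
      · rw [F_le n ξ h3]; exact ih ξ h1 h3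
      · rw [F_edge n ξ h3 h2 u v (hN n hn), ← (hV n).last]
        exact ih _ (β_mono hn) le_rfl
  have hN : ∀ u v, ∃ N, ∀ n ≥ N, s(u, v) ∉ E n := by
    intro u v
    obtain ⟨N, hN⟩ := (hfin s(u, v)).bddAbove
    refine ⟨N + 1, fun n hn h => ?_⟩
    have := hN h
    omega
  by_cases hcon : ∃ n, ∀ m ≥ n, β m = β n
  · obtain ⟨n, hn⟩ := hcon
    have hTn : ∀ m ≥ n, T m = T n := by
      intro m hm
      rw [← (hV m).last, hn m hm, F_le' n m hm _ le_rfl, (hV n).last]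
    have hSn : S = T n := by
      ext u v
      obtain ⟨N, hN⟩ := hS u v
      rw [← hN (max N n) (le_max_left _ _), hTn _ (le_max_right _ _)]
    rw [hSn]
    exact ⟨β n, F n, hV n, F_all n⟩
  · push Not at hcon
    set B : Ordinal.{0} := ⨆ n, β n with hB
    have hβle : ∀ n, β n ≤ B := fun n => Ordinal.le_iSup β n
    have hβlt : ∀ n, β n < B := by
      intro n
      obtain ⟨m, hm, hne⟩ := hcon n
      exact lt_of_lt_of_le (lt_of_le_of_ne (β_mono hm) (Ne.symm hne)) (hβle m)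
    have hlt : ∀ ξ < B, ∃ n, ξ < β n := fun ξ hξ => Ordinal.lt_iSup_iff.1 hξ
    let H : Ordinal.{0} → V → V → Prop := fun ξ =>
      if h : ∃ n, ξ ≤ β n then F (Nat.find h) ξ else S
    have H_le : ∀ n, ∀ ξ ≤ β n, H ξ = F n ξ := by
      intro n ξ hξ
      have h : ∃ n, ξ ≤ β n := ⟨n, hξ⟩
      simp only [H, dif_pos h]
      exact (F_le' _ n (Nat.find_min' h hξ) ξ (Nat.find_spec h)).symm
    have H_B : H B = S := by
      simp only [H]
      rw [dif_neg]
      rintro ⟨n, hn⟩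
      exact absurd (hβlt n) (not_lt.2 hn)
    refine ⟨B, H, ⟨?_, H_B, ?_, ?_⟩, ?_⟩
    · rw [H_le 0 0 zero_le]; exact (hV 0).zero
    · intro ξ hξ
      obtain ⟨n, hn⟩ := hlt ξ hξ
      rw [H_le n ξ hn.le, H_le n (ξ + 1) (Order.add_one_le_of_lt hn)]
      exact (hV n).step ξ hn
    · intro l hl hlim u v
      rcases lt_or_eq_of_le hl with h1 | rfl
      · obtain ⟨n, hn⟩ := hlt l h1
        obtain ⟨ξ, hξ, hξ2⟩ := (hV n).limit l hn.le hlim u v
        refine ⟨ξ, hξ, fun η hη hη2 => ?_⟩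
        rw [H_le n η (hη2.le.trans hn.le), H_le n l hn.le]
        exact hξ2 η hη hη2
      · obtain ⟨N, hN⟩ := hN u v
        refine ⟨β N, hβlt N, fun η hη hη2 => ?_⟩
        obtain ⟨n, hn⟩ := hlt η hη2
        have hn' : η ≤ β (max n N) := hn.le.trans (β_mono (le_max_left _ _))
        rw [H_le (max n N) η hn', H_B, F_late u v N hN _ (le_max_right _ _) η hη hn']
        obtain ⟨M, hM⟩ := hS u v
        rw [← hM (max M N) (le_max_left _ _), ← (hV (max M N)).last,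
          F_late u v N hN _ (le_max_right _ _) _ (β_mono (le_max_right _ _)) le_rfl]
    · intro ξ hξ u v huv
      rcases lt_or_eq_of_le hξ with h1 | rfl
      · obtain ⟨n, hn⟩ := hlt ξ h1
        rw [H_le n ξ hn.le]
        exact F_all n ξ hn.le u v huv
      · rw [H_B]
        obtain ⟨M, hM⟩ := hS u v
        rw [← hM M le_rfl, ← (hV M).last]
        exact F_all M _ le_rfl u v huv

end Pool.Agent.Helper4.ZRev
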